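import Pool.Agent.VTP.StmtsG

/-! # Squad VTP, row NPG: the number of partitions into parts `≥ 2` beats every polynomial -/

set_option autoImplicit false

namespace Pool.Agent.VTP.H86

open Finset

theorem fin_sub (n : ℕ) : Finite {s : Multiset ℕ // (∀ x ∈ s, 2 ≤ x) ∧ s.sum = n} := by
  refine Finite.of_injective
    (fun s => (⟨s.1, fun {i} hi => lt_of_lt_of_le (by norm_num) (s.2.1 i hi), s.2.2⟩ :
      Nat.Partition n)) ?_
  intro a b h
  have h2 := congrArg Nat.Partition.parts h
  exact Subtype.ext h2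

/-- The remainder. -/
def rem (K n : ℕ) (a : Fin K → ℕ) : ℕ := n - ∑ j, a j * (j.1 + 4)

/-- The multiset attached to a family of multiplicities. -/
def ms (K n : ℕ) (a : Fin K → ℕ) : Multiset ℕ :=
  (∑ j, Multiset.replicate (a j) (j.1 + 4)) +
    (Multiset.replicate (rem K n a / 2 - rem K n a % 2) 2 +
      Multiset.replicate (rem K n a % 2) 3)

theorem ms_ge (K n : ℕ) (a : Fin K → ℕ) : ∀ x ∈ ms K n a, 2 ≤ x := by
  intro x hx
  unfold ms at hx
  rw [Multiset.mem_add, Multiset.mem_add] at hx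
  rcases hx with hx | hx | hx
  · rw [Multiset.mem_sum] at hx
    obtain ⟨j, -, hj⟩ := hx
    rw [Multiset.eq_of_mem_replicate hj]
    omega
  · rw [Multiset.eq_of_mem_replicate hx]
  · rw [Multiset.eq_of_mem_replicate hx]
    omega

theorem ms_sum (K n : ℕ) (a : Fin K → ℕ) (h : ∑ j, a j * (j.1 + 4) + 2 ≤ n) :
    (ms K n a).sum = n := by
  have h1 : (∑ j, Multiset.replicate (a j) (j.1 + 4)).sum = ∑ j, a j * (j.1 + 4) := by
    rw [Multiset.sum_sum]
    refine Finset.sum_congr rfl fun j _ => ?_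
    rw [Multiset.sum_replicate, smul_eq_mul]
  unfold ms
  rw [Multiset.sum_add, Multiset.sum_add, h1, Multiset.sum_replicate, Multiset.sum_replicate,
    smul_eq_mul, smul_eq_mul]
  have h2 : rem K n a = n - ∑ j, a j * (j.1 + 4) := rfl
  generalize ∑ j, a j * (j.1 + 4) = T at *
  generalize rem K n a = r at *
  omega

theorem ms_count (K n : ℕ) (a : Fin K → ℕ) (i : Fin K) : (ms K n a).count (i.1 + 4) = a i := by
  unfold ms
  rw [Multiset.count_add, Multiset.count_add, Multiset.count_replicate, Multiset.count_replicate,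
    if_neg (by omega), if_neg (by omega), Multiset.count_sum']
  rw [Finset.sum_eq_single i]
  · rw [Multiset.count_replicate, if_pos rfl]; rfl
  · intro j _ hj
    rw [Multiset.count_replicate, if_neg]
    intro h
    exact hj (Fin.ext (by omega))
  · intro h
    exact absurd (Finset.mem_univ i) h

theorem pow_le_np (K L n : ℕ) (hK : 1 ≤ K) (hL : 1 ≤ L) (h : K * (K + 3) * L ≤ n) :
    L ^ K ≤ np n := by
  have hs : ∀ a : Fin K → Fin L, ∑ j, (a j : ℕ) * (j.1 + 4) + 2 ≤ n := by
    intro a
    have h1 : ∑ j, (a j : ℕ) * (j.1 + 4) ≤ ∑ _j : Fin K, (L - 1) * (K + 3) := by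
      refine Finset.sum_le_sum fun j _ => ?_
      have h2 := (a j).2
      have h3 := j.2
      exact Nat.mul_le_mul (by omega) (by omega)
    rw [Finset.sum_const, Finset.card_univ, Fintype.card_fin, smul_eq_mul] at h1
    have h4 : K * ((L - 1) * (K + 3)) + K * (K + 3) = K * (K + 3) * L := by
      obtain ⟨L, rfl⟩ : ∃ M, L = M + 1 := ⟨L - 1, by omega⟩
      simp only [Nat.add_sub_cancel]
      ring
    have h5 : 2 ≤ K * (K + 3) := by nlinarith
    omega
  have := fin_sub n
  unfold np
  have h6 : L ^ K = Nat.card (Fin K → Fin L) := by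
    rw [Nat.card_eq_fintype_card, Fintype.card_fun, Fintype.card_fin, Fintype.card_fin]
  rw [h6]
  refine Nat.card_le_card_of_injective
    (fun a => ⟨ms K n (fun j => (a j : ℕ)), ms_ge _ _ _, ms_sum _ _ _ (hs a)⟩) ?_
  intro a b hab
  have h7 : ms K n (fun j => (a j : ℕ)) = ms K n (fun j => (b j : ℕ)) := congrArg Subtype.val hab
  funext i
  have h8 := congrArg (fun s => Multiset.count (i.1 + 4) s) h7
  simp only [ms_count] at h8
  exact Fin.ext h8

theorem npg : NpgStmt := by
  intro k
  set K := k + 2 with hK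
  set D := K * (K + 3) with hD
  have hD1 : 1 ≤ D := by
    rw [hD]
    nlinarith [Nat.zero_le k]
  refine ⟨(2 * D) ^ K + D, fun n hn => ?_⟩
  have hL : 1 ≤ n / D := (Nat.one_le_div_iff (by omega)).2 (by omega)
  have h1 : (n / D) ^ K ≤ np n :=
    pow_le_np K (n / D) n (by omega) hL (Nat.mul_div_le n D)
  refine le_trans ?_ h1
  have h2 : n < D * (n / D + 1) := by
    have := Nat.lt_mul_div_succ n (show 0 < D by omega)
    exact this
  have h3 : n ≤ 2 * D * (n / D) := by
    have : D * (n / D + 1) ≤ 2 * D * (n / D) := by nlinarith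
    omega
  have h4 : n ^ K ≤ (2 * D) ^ K * (n / D) ^ K := by
    rw [← mul_pow]
    exact Nat.pow_le_pow_left h3 K
  have h5 : (2 * D) ^ K * n ^ k ≤ n ^ K := by
    have e : n ^ K = (n * n) * n ^ k := by rw [hK, pow_add]; ring
    rw [e]
    refine Nat.mul_le_mul_right _ ?_
    have h6 : 1 ≤ n := by omega
    calc (2 * D) ^ K ≤ n := by omega
      _ = n * 1 := (mul_one n).symm
      _ ≤ n * n := Nat.mul_le_mul_left n h6
  have h7 : 0 < (2 * D) ^ K := pow_pos (by omega) K
  exact Nat.le_of_mul_le_mul_left (le_trans h5 h4) h7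

end Pool.Agent.VTP.H86
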